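import Pool.Agent.Run7.h121.UM.Gap
set_option autoImplicit false

namespace Pool.Agent.Results.MP_e32761_co.CubelikeSmallDegree

/-- The Cayley graph of (ZMod 2)^(d+1) with connection set C has uniform mixing at time t. -/
def UniformMixing (d : ℕ) (C : Finset (Fin (d + 1) → ZMod 2)) (t : ℝ) : Prop :=
  ∀ a b : Fin (d + 1) → ZMod 2,
    ‖NormedSpace.exp ((Complex.I * (t : ℂ)) •
        (Matrix.of fun x y : Fin (d + 1) → ZMod 2 =>
          if y - x ∈ C then (1 : ℂ) else 0)) a b‖ ^ 2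
      = 1 / ((2 : ℝ) ^ (d + 1))

/-- Every uniform mixing time of a cubelike graph of degree at most 13, or of any cubelike
graph whose second largest eigenvalue is at least its degree minus 12, is an integer
multiple of pi/8. -/
theorem result (d : ℕ) (C : Finset (Fin (d + 1) → ZMod 2))
    (h0 : (0 : Fin (d + 1) → ZMod 2) ∉ C) (t : ℝ) (hU : UniformMixing d C t)
    (hC : C.card ≤ 13 ∨ ∃ χ : AddChar (Fin (d + 1) → ZMod 2) ℂ, χ ≠ 0 ∧
      (C.card : ℝ) - 12 ≤ (∑ c ∈ C, χ c).re) :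
    ∃ k : ℤ, t = (k : ℝ) * (Real.pi / 8) := by
  have hCneg : ∀ c ∈ C, -c ∈ C := by
    intro c hc
    have : -c = c := by
      funext i
      have : ∀ x : ZMod 2, -x = x := by decide
      exact this (c i)
    rw [this]; exact hc
  have hint := fun ψ : AddChar (Fin (d + 1) → ZMod 2) ℂ =>
    Pool.Agent.Run7.h121.UM.eigen_int C hCneg
      (Pool.Agent.Run7.h121.UM.exponent_cases 0 d (Or.inl rfl)) ψ
  choose θ hθ using hint
  have hcard : (Fintype.card (Fin (d + 1) → ZMod 2) : ℝ) = (2 : ℝ) ^ (d + 1) := by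
    have := Pool.Agent.Run7.h121.UM.card_cube 0 d
    simpa using this
  have hcardN : Fintype.card (Fin (d + 1) → ZMod 2) = 2 ^ (d + 1) := by exact_mod_cast hcard
  have hn := Pool.Agent.Run7.h121.UM.two_le_card 0 d
  have hU' : ∀ y : Fin (d + 1) → ZMod 2, ‖(NormedSpace.exp ((Complex.I * (t : ℂ)) •
      Pool.Agent.Run7.h121.UM.adj C)) 0 y‖ ^ 2 = 1 / (Fintype.card (Fin (d + 1) → ZMod 2) : ℝ) := by
    intro y
    rw [hcard]
    exact hU 0 y
  have hG : ∀ g : Fin (d + 1) → ZMod 2, g + g = 0 := by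
    intro g; funext i
    have : ∀ x : ZMod 2, x + x = 0 := by decide
    exact this (g i)
  have h14 : Fintype.card (Fin (d + 1) → ZMod 2) ≠ 14 := by
    rw [hcardN]
    intro h
    rcases Nat.lt_or_ge d 3 with hd | hd
    · interval_cases d <;> norm_num at h
    · have : 2 ^ 4 ≤ 2 ^ (d + 1) := Nat.pow_le_pow_right (by norm_num) (by omega)
      omega
  have hex : ∃ χ : AddChar (Fin (d + 1) → ZMod 2) ℂ, χ ≠ 0 ∧
      (C.filter (fun c => χ c = -1)).card ≤ 6 := by
    rcases hC with h | ⟨χ, hχ, h⟩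
    · exact Pool.Agent.Run7.h121.UM.exists_small hG C h0 h hn h14
    · exact ⟨χ, hχ, Pool.Agent.Run7.h121.UM.small_of_eigenvalue hG C χ h⟩
  obtain ⟨χ, hχ, hm⟩ := hex
  exact Pool.Agent.Run7.h121.UM.small_hyperplane hG C θ hθ t hU' χ hχ hm

end Pool.Agent.Results.MP_e32761_co.CubelikeSmallDegree
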