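import Pool.Agent.Run7.h121.UM.Concrete
set_option autoImplicit false

namespace Pool.Agent.Results.MP_e32761_co.CubelikeTotallyReal

/-- The Cayley graph of (ZMod 2)^(d+1) with connection set C has uniform mixing at time t. -/
def UniformMixing (d : ℕ) (C : Finset (Fin (d + 1) → ZMod 2)) (t : ℝ) : Prop :=
  ∀ a b : Fin (d + 1) → ZMod 2,
    ‖NormedSpace.exp ((Complex.I * (t : ℂ)) •
        (Matrix.of fun x y : Fin (d + 1) → ZMod 2 =>
          if y - x ∈ C then (1 : ℂ) else 0)) a b‖ ^ 2
      = 1 / ((2 : ℝ) ^ (d + 1))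

/-- A uniform mixing time t of a cubelike graph is a rational multiple of pi whenever all
conjugates of cos 4t are real, in particular whenever cos 4t has degree at most two. -/
theorem result (d : ℕ) (C : Finset (Fin (d + 1) → ZMod 2))
    (_h0 : (0 : Fin (d + 1) → ZMod 2) ∉ C) (t : ℝ) (hU : UniformMixing d C t)
    (hreal : (∀ x : ℂ, Polynomial.aeval x (minpoly ℚ (Real.cos (4 * t))) = 0 → x.im = 0) ∨
      (minpoly ℚ (Real.cos (4 * t))).natDegree ≤ 2) :
    ∃ r : ℚ, t = (r : ℝ) * Real.pi := by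
  have hC : ∀ c ∈ C, -c ∈ C := by
    intro c hc
    have : -c = c := by
      funext i
      have : ∀ x : ZMod 2, -x = x := by decide
      exact this (c i)
    rw [this]; exact hc
  have hint := fun ψ : AddChar (Fin (d + 1) → ZMod 2) ℂ =>
    Pool.Agent.Run7.h121.UM.eigen_int C hC
      (Pool.Agent.Run7.h121.UM.exponent_cases 0 d (Or.inl rfl)) ψ
  choose θ hθ using hint
  have hcard : (Fintype.card (Fin (d + 1) → ZMod 2) : ℝ) = (2 : ℝ) ^ (d + 1) := by
    have := Pool.Agent.Run7.h121.UM.card_cube 0 d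
    simpa using this
  have hn := Pool.Agent.Run7.h121.UM.two_le_card 0 d
  have hU' : ∀ y : Fin (d + 1) → ZMod 2, ‖(NormedSpace.exp ((Complex.I * (t : ℂ)) •
      Pool.Agent.Run7.h121.UM.adj C)) 0 y‖ ^ 2 = 1 / (Fintype.card (Fin (d + 1) → ZMod 2) : ℝ) := by
    intro y
    rw [hcard]
    exact hU 0 y
  have hG : ∀ g : Fin (d + 1) → ZMod 2, g + g = 0 := by
    intro g; funext i
    have : ∀ x : ZMod 2, x + x = 0 := by decide
    exact this (g i)
  refine Pool.Agent.Run7.h121.UM.two_rational hG C θ hθ t hn hU' ?_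
  rcases hreal with h | h
  · exact h
  · intro x hx
    refine Pool.Agent.Run7.h121.UM.real_of_degree_two _ ?_ h x hx
    have h1 := Pool.Agent.Run7.h121.UM.integral_of_uniform C θ hθ t hn hU'
    exact Pool.Agent.Run7.h121.UM.cos_four_integral t h1

end Pool.Agent.Results.MP_e32761_co.CubelikeTotallyReal
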