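import Pool.Agent.Run7.h121.UM.Concrete
set_option autoImplicit false

namespace Pool.Agent.Results.MP_e32761_co.UnitTimes

/-- The Cayley graph of (ZMod (q+2))^(d+1) with connection set C has uniform mixing at time t. -/
def UniformMixing (q d : ℕ) (C : Finset (Fin (d + 1) → ZMod (q + 2))) (t : ℝ) : Prop :=
  ∀ a b : Fin (d + 1) → ZMod (q + 2),
    ‖NormedSpace.exp ((Complex.I * (t : ℂ)) •
        (Matrix.of fun x y : Fin (d + 1) → ZMod (q + 2) =>
          if y - x ∈ C then (1 : ℂ) else 0)) a b‖ ^ 2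
      = 1 / ((q + 2 : ℝ) ^ (d + 1))

/-- At every uniform mixing time t of a Cayley graph over Z_q^d with integer eigenvalues
(automatic for q = 2, 3, 4, 6) the number exp(it) is an algebraic integer; in particular
t is a rational multiple of pi as soon as cos t is rational. -/
theorem result (q d : ℕ) (C : Finset (Fin (d + 1) → ZMod (q + 2)))
    (_h0 : (0 : Fin (d + 1) → ZMod (q + 2)) ∉ C) (hC : ∀ c ∈ C, -c ∈ C) (t : ℝ)
    (hU : UniformMixing q d C t)
    (hq : (q + 2 = 2 ∨ q + 2 = 3 ∨ q + 2 = 4 ∨ q + 2 = 6) ∨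
      (∀ ψ : AddChar (Fin (d + 1) → ZMod (q + 2)) ℂ, ∃ m : ℤ, (∑ c ∈ C, ψ c) = m)) :
    IsIntegral ℤ (Complex.exp (Complex.I * t)) ∧
      ∀ r : ℚ, Real.cos t = r → ∃ s : ℚ, t = (s : ℝ) * Real.pi := by
  have hint : ∀ ψ : AddChar (Fin (d + 1) → ZMod (q + 2)) ℂ, ∃ m : ℤ, (∑ c ∈ C, ψ c) = m := by
    rcases hq with h | h
    · exact fun ψ => Pool.Agent.Run7.h121.UM.eigen_int C hC
        (Pool.Agent.Run7.h121.UM.exponent_cases q d h) ψ
    · exact h
  choose θ hθ using hint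
  have h1 : IsIntegral ℤ (Complex.exp (Complex.I * t)) := by
    refine Pool.Agent.Run7.h121.UM.integral_of_uniform C θ hθ t
      (Pool.Agent.Run7.h121.UM.two_le_card q d) ?_
    intro y
    rw [Pool.Agent.Run7.h121.UM.card_cube]
    exact hU 0 y
  exact ⟨h1, fun r hr => Pool.Agent.Run7.h121.UM.rational_time t h1 r hr⟩

end Pool.Agent.Results.MP_e32761_co.UnitTimes
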